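import Pool.Agent.TH734.MR.Val

/-!
# Two counting inequalities for Newton-Okounkov semigroups
-/

set_option autoImplicit false

open MvPolynomial Finset
open scoped Pointwise

namespace Pool.Agent.TH734.MR

variable {k : ℕ}

theorem coeff_zero_tS (F : Fin k → T k) (h : S k) : coeff 0 (tS F h) = aeval F h := by
  have : ((MvPolynomial.constantCoeff : B k →+* T k).comp (tS F : S k →+* B k)) =
      ((aeval F : S k →ₐ[ℚ] T k) : S k →+* T k) := by
    apply MvPolynomial.ringHom_ext
    · intro r
      simp [tS, IsScalarTower.algebraMap_apply ℚ (T k) (B k)]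
    · intro i
      simp [tS]
  exact congrArg (fun f => f h) this

theorem coeff_mul_ord {p q : B k} {m : Fin k →₀ ℕ} (h : ord q = toLex m) :
    coeff m (p * q) = coeff 0 p * coeff m q := by
  classical
  rw [MvPolynomial.coeff_mul, Finset.sum_eq_single_of_mem (0, m)]
  · simp
  · rintro ⟨u, v⟩ huv hne
    rw [HasAntidiagonal.mem_antidiagonal] at huv
    simp only at huv ⊢
    have hv : toLex v < toLex m := by
      apply lt_of_le_of_ne
      · apply Finsupp.toLex_monotone
        rw [← huv]
        exact le_add_self
      · intro hvm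
        have hvm' : v = m := hvm
        subst hvm'
        apply hne
        have : u = 0 := by simpa using huv
        rw [this]
    rw [coeff_eq_zero_of_lt_ord (p := q) (by rw [h]; exact_mod_cast hv), mul_zero]

theorem coeff_mul_lt {p q : B k} {m : Fin k →₀ ℕ} (h : toLex m < ord q) :
    coeff m (p * q) = 0 := by
  classical
  rw [MvPolynomial.coeff_mul]
  apply Finset.sum_eq_zero
  rintro ⟨u, v⟩ huv
  rw [HasAntidiagonal.mem_antidiagonal] at huv
  simp only at huv ⊢
  have hv : toLex v ≤ toLex m := by
    apply Finsupp.toLex_monotone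
    rw [← huv]
    exact le_add_self
  rw [coeff_eq_zero_of_lt_ord (p := q) (lt_of_le_of_lt (by exact_mod_cast hv) h), mul_zero]

/-- Linear independence of products gives independence over a polynomial ring. -/
theorem indep_aeval {ι : Type} [Fintype ι] {r : ℕ} (f : Fin r → T k) (e : ι → T k)
    (hI : LinearIndependent ℚ (fun p : ι × (Fin r → ℕ) => (∏ i, f i ^ p.2 i) * e p.1))
    (H : ι → MvPolynomial (Fin r) ℚ) (h0 : ∑ i, aeval f (H i) * e i = 0) (i : ι) : H i = 0 := by
  classical
  let D : Finset (Fin r → ℕ) :=
    (Finset.univ.biUnion fun i => (H i).support).image (fun d : Fin r →₀ ℕ => (⇑d : Fin r → ℕ))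
  have hexp : ∀ i, aeval f (H i) * e i =
      ∑ β ∈ D, coeff (Finsupp.equivFunOnFinite.symm β) (H i) • ((∏ l, f l ^ β l) * e i) := by
    intro i
    rw [MvPolynomial.aeval_def, MvPolynomial.eval₂_eq', Finset.sum_mul]
    have h1 : ∑ β ∈ D, coeff (Finsupp.equivFunOnFinite.symm β) (H i) • ((∏ l, f l ^ β l) * e i) =
        ∑ d ∈ (Finset.univ.biUnion fun i => (H i).support),
          coeff d (H i) • ((∏ l, f l ^ d l) * e i) := by
      rw [Finset.sum_image]
      · apply Finset.sum_congr rfl
        intro d _
        congr 2
        ext l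
        rfl
      · intro a _ b _ hab
        exact DFunLike.coe_injective hab
    rw [h1]
    have hsub : (H i).support ⊆ Finset.univ.biUnion fun i => (H i).support :=
      Finset.subset_biUnion_of_mem (fun i => (H i).support) (Finset.mem_univ i)
    rw [← Finset.sum_subset hsub]
    · apply Finset.sum_congr rfl
      intro d _
      rw [Algebra.smul_def, mul_assoc]
    · intro d _ hd
      rw [MvPolynomial.notMem_support_iff.1 hd, zero_smul]
  have hsum : ∑ p ∈ (Finset.univ : Finset ι) ×ˢ D,
      coeff (Finsupp.equivFunOnFinite.symm p.2) (H p.1) • ((∏ l, f l ^ p.2 l) * e p.1) = 0 := by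
    rw [Finset.sum_product]
    simp only [← hexp]
    exact h0
  have hz := linearIndependent_iff'.1 hI ((Finset.univ : Finset ι) ×ˢ D)
    (fun p => coeff (Finsupp.equivFunOnFinite.symm p.2) (H p.1)) hsum
  ext d
  rw [MvPolynomial.coeff_zero]
  by_cases hd : d ∈ (H i).support
  · have hmem : (i, (d : Fin r → ℕ)) ∈ (Finset.univ : Finset ι) ×ˢ D := by
      rw [Finset.mem_product]
      refine ⟨Finset.mem_univ _, Finset.mem_image.2 ⟨d, ?_, rfl⟩⟩
      exact Finset.mem_biUnion.2 ⟨i, Finset.mem_univ _, hd⟩
    have := hz _ hmem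
    simpa using this
  · exact MvPolynomial.notMem_support_iff.1 hd

theorem th_smul (F : Fin k → T k) (c : S k) (g : SL k) : th F (c • g) = tS F c * th F g := by
  induction g using AddMonoidAlgebra.induction_linear with
  | zero => simp
  | add f g hf hg => rw [smul_add, map_add, map_add, hf, hg, mul_add]
  | single b h =>
    rw [AddMonoidAlgebra.smul_single, th_single, th_single, smul_eq_mul, map_mul, mul_assoc]

/-- Counting: independent monomials over `ℚ[F]` times smallest exponents. -/
theorem count_U (F : Fin k → T k) (R P : Finset (Fin k → ℤ))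
    (hU : LinearIndependent ℚ (fun p : R × (Fin k → ℕ) => (∏ i, F i ^ p.2 i) * mon p.1))
    (G : Finset (Fin k → ℕ)) (hG : ∀ α ∈ G, α ∈ Gam F P) :
    R.card * G.card ≤ (P + R).card := by
  classical
  choose! g hg ho using hG
  let v : R × G → SL k := fun p => AddMonoidAlgebra.single (p.1 : Fin k → ℤ) 1 * g p.2
  let Ψ : (R × G → S k) →ₗ[S k] ((P + R : Finset (Fin k → ℤ)) → S k) :=
    { toFun := fun H q => (∑ p, H p • v p).coeff q
      map_add' := fun H H' => by
        ext q : 1
        simp [add_smul, Finset.sum_add_distrib]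
      map_smul' := fun c H => by
        ext q : 1
        simp only [Pi.smul_apply, smul_eq_mul, mul_smul, ← Finset.smul_sum,
          AddMonoidAlgebra.coeff_smul, RingHom.id_apply, Finsupp.smul_apply] }
  have hinj : Function.Injective Ψ := by
    rw [injective_iff_map_eq_zero]
    intro H hH
    by_contra hne
    have hg0 : ∑ p, H p • v p = 0 := by
      ext q : 2
      by_cases hq : q ∈ P + R
      · have := congrFun hH ⟨q, hq⟩
        simpa [Ψ] using this
      · rw [AddMonoidAlgebra.coeff_zero, Finsupp.zero_apply]
        by_contra hcon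
        apply hq
        have hq2 : ∃ p : R × G, (H p • v p).coeff q ≠ 0 := by
          by_contra hall
          push Not at hall
          apply hcon
          rw [AddMonoidAlgebra.coeff_sum, Finsupp.finsetSum_apply]
          exact Finset.sum_eq_zero fun p _ => hall p
        obtain ⟨p, hp⟩ := hq2
        have hp2 : (v p).coeff q ≠ 0 := by
          intro h
          apply hp
          rw [AddMonoidAlgebra.coeff_smul, Finsupp.smul_apply, h, smul_zero]
        have hp3 := AddMonoidAlgebra.support_coeff_mul_subset _ _ (Finsupp.mem_support_iff.2 hp2)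
        rw [add_comm]
        refine Finset.add_subset_add ?_ (hg _ p.2.2) hp3
        intro x hx
        rw [AddMonoidAlgebra.coeff_single] at hx
        have := Finsupp.support_single_subset hx
        rw [Finset.mem_singleton] at this
        rw [this]
        exact p.1.2
    have hth : ∑ p : R × G, tS F (H p) * C (mon p.1) * th F (g p.2) = 0 := by
      have h1 := congrArg (th F) hg0
      rw [map_sum, map_zero] at h1
      rw [← h1]
      apply Finset.sum_congr rfl
      intro p _
      rw [th_smul, map_mul, th_single, map_one, one_mul, mul_assoc]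
    obtain ⟨⟨r0, α0⟩, h00⟩ : ∃ p, H p ≠ 0 := by
      by_contra hall
      push Not at hall
      exact hne (funext hall)
    let G' : Finset G := Finset.univ.filter (fun α => ∃ r : R, H (r, α) ≠ 0)
    have hG' : G'.Nonempty := ⟨α0, Finset.mem_filter.2 ⟨Finset.mem_univ _, r0, h00⟩⟩
    obtain ⟨α, hαG, hmin⟩ := Finset.exists_min_image G' (fun α => toLex (fs (α : Fin k → ℕ))) hG'
    obtain ⟨-, r1, hr1⟩ := Finset.mem_filter.1 hαG
    have hw : coeff (fs α) (th F (g α)) ≠ 0 := coeff_ne_zero_of_ord (ho α α.2)
    have hcoef : ∑ r : R, aeval F (H (r, α)) * mon r * coeff (fs α) (th F (g α)) = 0 := by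
      have h2 := congrArg (coeff (fs α)) hth
      rw [MvPolynomial.coeff_sum, MvPolynomial.coeff_zero, Fintype.sum_prod_type] at h2
      rw [← h2]
      apply Finset.sum_congr rfl
      intro r _
      rw [Finset.sum_eq_single_of_mem α (Finset.mem_univ _)]
      · rw [coeff_mul_ord (ho α α.2), mul_comm (tS F _) (C _), MvPolynomial.coeff_C_mul, coeff_zero_tS,
          mul_comm (mon _) (aeval F _)]
      · intro β _ hβ
        by_cases hz : H (r, β) = 0
        · simp [hz]
        · apply coeff_mul_lt
          rw [ho β β.2]
          have hle := hmin β (Finset.mem_filter.2 ⟨Finset.mem_univ _, r, hz⟩)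
          have hlt : toLex (fs (α : Fin k → ℕ)) < toLex (fs (β : Fin k → ℕ)) := by
            apply lt_of_le_of_ne hle
            intro heq
            apply hβ
            have h3 : fs (α : Fin k → ℕ) = fs (β : Fin k → ℕ) := heq
            have h4 : (α : Fin k → ℕ) = β := Finsupp.equivFunOnFinite.symm.injective h3
            exact (Subtype.ext h4).symm
          exact_mod_cast hlt
    rw [← Finset.sum_mul] at hcoef
    have hsum0 : ∑ r : R, aeval F (H (r, α)) * mon r = 0 := by
      rcases mul_eq_zero.1 hcoef with h | h
      · exact h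
      · exact absurd h hw
    exact hr1 (indep_aeval F (fun r : R => mon r) hU (fun r => H (r, α)) hsum0 r1)
  have := card_le_of_injective (S k) Ψ hinj
  simpa using this

theorem Gam_finite (F : Fin k → T k) (R P : Finset (Fin k → ℤ)) (hR : R.Nonempty)
    (hU : LinearIndependent ℚ (fun p : R × (Fin k → ℕ) => (∏ i, F i ^ p.2 i) * mon p.1)) :
    (Gam F P).Finite := by
  by_contra hinf
  obtain ⟨G, hG, hc⟩ := Set.Infinite.exists_subset_card_eq hinf ((P + R).card + 1)
  have h1 := count_U F R P hU G (fun α hα => hG hα)
  rw [hc] at h1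
  have h2 : 1 ≤ R.card := Finset.card_pos.2 hR
  nlinarith

theorem count_U' (F : Fin k → T k) (R P : Finset (Fin k → ℤ))
    (hU : LinearIndependent ℚ (fun p : R × (Fin k → ℕ) => (∏ i, F i ^ p.2 i) * mon p.1)) :
    R.card * (Gam F P).ncard ≤ (P + R).card := by
  rcases R.eq_empty_or_nonempty with rfl | hR
  · simp
  have hf := Gam_finite F R P hR hU
  have h1 := count_U F R P hU hf.toFinset (fun α hα => hf.mem_toFinset.1 hα)
  rwa [← Set.ncard_eq_toFinset_card _ hf] at h1

end Pool.Agent.TH734.MR
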