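import Pool.Agent.TH734.MR.Count

/-!
# The counting inequality for sections
-/

set_option autoImplicit false

open MvPolynomial Finset
open scoped Pointwise

namespace Pool.Agent.TH734.MR

variable {k : ℕ}

/-- All coefficients have exponents in `Q`. -/
def Sup (Q : Finset (Fin k → ℤ)) (p : B k) : Prop := ∀ m, (coeff m p).coeff.support ⊆ Q

theorem Sup.mono {Q Q' : Finset (Fin k → ℤ)} {p : B k} (h : Sup Q p) (hQ : Q ⊆ Q') : Sup Q' p :=
  fun m => (h m).trans hQ

theorem sup_sub_of_sum {ι : Type} (s : Finset ι) (f : ι → T k) (Q : Finset (Fin k → ℤ))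
    (h : ∀ i ∈ s, (f i).coeff.support ⊆ Q) : (∑ i ∈ s, f i).coeff.support ⊆ Q := by
  classical
  intro q hq
  rw [Finsupp.mem_support_iff, AddMonoidAlgebra.coeff_sum, Finsupp.finsetSum_apply] at hq
  obtain ⟨i, hi, hne⟩ := Finset.exists_ne_zero_of_sum_ne_zero hq
  exact h i hi (Finsupp.mem_support_iff.2 hne)

theorem Sup.mul {Q Q' : Finset (Fin k → ℤ)} {p q : B k} (h : Sup Q p) (h' : Sup Q' q) :
    Sup (Q + Q') (p * q) := by
  classical
  intro m
  rw [MvPolynomial.coeff_mul]
  apply sup_sub_of_sum
  rintro ⟨u, v⟩ _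
  exact (AddMonoidAlgebra.support_coeff_mul_subset _ _).trans (Finset.add_subset_add (h u) (h' v))

theorem Sup.one : Sup ({0} : Finset (Fin k → ℤ)) (1 : B k) := by
  classical
  intro m
  rw [MvPolynomial.coeff_one]
  split_ifs
  · rw [AddMonoidAlgebra.one_def, AddMonoidAlgebra.coeff_single]
    exact Finsupp.support_single_subset
  · simp

theorem Sup.pow {Q : Finset (Fin k → ℤ)} {p : B k} (h : Sup Q p) (n : ℕ) : Sup (n • Q) (p ^ n) := by
  induction n with
  | zero =>
    rw [zero_nsmul, pow_zero]
    exact Sup.one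
  | succ n ih =>
    rw [succ_nsmul, pow_succ]
    exact ih.mul h

theorem Sup.prod {ι : Type} (s : Finset ι) (b : ι → ℕ) {Q : Finset (Fin k → ℤ)} {p : ι → B k}
    (h : ∀ i ∈ s, Sup Q (p i)) : Sup ((∑ i ∈ s, b i) • Q) (∏ i ∈ s, p i ^ b i) := by
  classical
  induction s using Finset.induction_on with
  | empty =>
    rw [Finset.sum_empty, Finset.prod_empty, zero_nsmul]
    exact Sup.one
  | insert a s ha ih =>
    rw [Finset.sum_insert ha, Finset.prod_insert ha, add_nsmul]
    exact ((h a (Finset.mem_insert_self _ _)).pow _).mul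
      (ih fun i hi => h i (Finset.mem_insert_of_mem hi))

theorem Sup.C {Q : Finset (Fin k → ℤ)} {f : T k} (h : f.coeff.support ⊆ Q) :
    Sup Q (MvPolynomial.C f : B k) := by
  classical
  intro m
  rw [MvPolynomial.coeff_C]
  split_ifs
  · exact h
  · simp

theorem Sup.sum {ι : Type} (s : Finset ι) {Q : Finset (Fin k → ℤ)} {p : ι → B k}
    (h : ∀ i ∈ s, Sup Q (p i)) : Sup Q (∑ i ∈ s, p i) := by
  intro m
  rw [MvPolynomial.coeff_sum]
  exact sup_sub_of_sum _ _ _ fun i hi => h i hi m

theorem sup_XC (F : Fin k → T k) {X' : Finset (Fin k → ℤ)} (hX : ∀ i, (F i).coeff.support ⊆ X')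
    (i : Fin k) : Sup (insert 0 X') (X i + MvPolynomial.C (F i) : B k) := by
  classical
  intro m
  rw [MvPolynomial.coeff_add, MvPolynomial.coeff_X, MvPolynomial.coeff_C]
  intro q hq
  rw [Finset.mem_insert]
  by_contra hcon
  rw [not_or] at hcon
  rw [Finsupp.mem_support_iff] at hq
  apply hq
  have h1 : (F i).coeff q = 0 := by
    by_contra h
    exact hcon.2 (hX i (Finsupp.mem_support_iff.2 h))
  have h2 : (1 : T k).coeff q = 0 := by
    rw [AddMonoidAlgebra.one_def, AddMonoidAlgebra.coeff_single, Finsupp.single_apply,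
      if_neg (fun h => hcon.1 h.symm)]
  split_ifs <;> simp [h1, h2]

/-- Expansions of monomials of bounded degree. -/
theorem sup_th (F : Fin k → T k) {X' P : Finset (Fin k → ℤ)} (hX : ∀ i, (F i).coeff.support ⊆ X')
    (N : ℕ) (a : Fin k → ℤ) (ha : a ∈ P) (β : Fin k → ℕ) (hβ : ∑ i, β i ≤ N) (c : ℚ) :
    Sup (P + N • (insert 0 X')) (th F (AddMonoidAlgebra.single a (monomial (fs β) c))) := by
  classical
  rw [th_single, mul_comm]
  apply Sup.mul
  · apply Sup.C
    intro x hx
    unfold mon at hx
    rw [AddMonoidAlgebra.coeff_single] at hx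
    have := Finsupp.support_single_subset hx
    rw [Finset.mem_singleton] at this
    rw [this]
    exact ha
  · have h1 : tS F (monomial (fs β) c) =
        MvPolynomial.C (algebraMap ℚ (T k) c) * ∏ i, (X i + MvPolynomial.C (F i)) ^ β i := by
      unfold tS
      rw [MvPolynomial.aeval_monomial, IsScalarTower.algebraMap_apply ℚ (T k) (B k),
        MvPolynomial.algebraMap_eq, Finsupp.prod_fintype]
      · rfl
      · intro i
        simp
    rw [h1]
    have h2 : Sup (({0} : Finset (Fin k → ℤ)) + (∑ i, β i) • (insert 0 X'))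
        (MvPolynomial.C (algebraMap ℚ (T k) c) * ∏ i, (X i + MvPolynomial.C (F i)) ^ β i) := by
      apply Sup.mul
      · apply Sup.C
        intro x hx
        rw [Algebra.algebraMap_eq_smul_one, AddMonoidAlgebra.coeff_smul,
          AddMonoidAlgebra.one_def, AddMonoidAlgebra.coeff_single] at hx
        exact Finsupp.support_single_subset (Finsupp.support_smul hx)
      · exact Sup.prod _ _ fun i _ => sup_XC F hX i
    apply h2.mono
    rw [Finset.singleton_zero, zero_add]
    exact Finset.nsmul_subset_nsmul_right (Finset.mem_insert_self _ _) hβ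

/-- The exponents of total degree at most `N`. -/
def box (k N : ℕ) : Finset (Fin k → ℕ) :=
  (Fintype.piFinset fun _ => Finset.range (N + 1)).filter fun b => ∑ i, b i ≤ N

theorem mem_box {N : ℕ} {b : Fin k → ℕ} : b ∈ box k N ↔ ∑ i, b i ≤ N := by
  unfold box
  rw [Finset.mem_filter, Fintype.mem_piFinset, and_iff_right_iff_imp]
  intro h i
  rw [Finset.mem_range]
  exact Nat.lt_succ_of_le ((Finset.single_le_sum (fun _ _ => Nat.zero_le _)
    (Finset.mem_univ i)).trans h)

/-- Substitute `c_i = F_i` for `i < j` and shift back the other variables. -/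
noncomputable def rho (F : Fin k → T k) (j : ℕ) : B k →ₐ[T k] B k :=
  aeval (fun i => if (i : ℕ) < j then 0 else X i - MvPolynomial.C (F i))

/-- The constants with `c_i = F_i` for `i < j`. -/
noncomputable def Yj (F : Fin k → T k) (j : ℕ) (i : Fin k) : B k :=
  if (i : ℕ) < j then MvPolynomial.C (F i) else X i

theorem rho_tS (F : Fin k → T k) (j : ℕ) (h : S k) : rho F j (tS F h) = aeval (Yj F j) h := by
  have : ((rho F j : B k →+* B k).comp (tS F : S k →+* B k)) =
      ((aeval (Yj F j) : S k →ₐ[ℚ] B k) : S k →+* B k) := by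
    apply MvPolynomial.ringHom_ext
    · intro r
      simp [rho, tS, IsScalarTower.algebraMap_apply ℚ (T k) (B k)]
    · intro i
      simp only [rho, tS, Yj, RingHom.coe_comp, RingHom.coe_coe, Function.comp_apply, aeval_X,
        map_add, algHom_C, algebraMap_eq]
      split_ifs <;> simp
  exact congrArg (fun f => f h) this

theorem rho_th (F : Fin k → T k) (j : ℕ) (g : SL k) :
    rho F j (th F g) = ∑ a ∈ g.coeff.support, aeval (Yj F j) (g.coeff a) * MvPolynomial.C (mon a) := by
  classical
  conv_lhs => rw [← AddMonoidAlgebra.sum_coeff_single g, Finsupp.sum]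
  rw [map_sum, map_sum]
  apply Finset.sum_congr rfl
  intro a _
  rw [th_single, map_mul, rho_tS]
  congr 1
  unfold rho
  rw [MvPolynomial.algHom_C]
  rfl

theorem exists_mem_support_of_rho (F : Fin k → T k) (j : ℕ) (p : B k) (h : rho F j p ≠ 0) :
    ∃ m : Fin k →₀ ℕ, coeff m p ≠ 0 ∧ ∀ i : Fin k, (i : ℕ) < j → m i = 0 := by
  by_contra hcon
  push Not at hcon
  apply h
  unfold rho
  rw [MvPolynomial.aeval_def, MvPolynomial.eval₂_eq']
  apply Finset.sum_eq_zero
  intro m hm
  obtain ⟨i, hij, hmi⟩ := hcon m (MvPolynomial.mem_support_iff.1 hm)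
  rw [Finset.prod_eq_zero (Finset.mem_univ i), mul_zero]
  rw [if_pos hij, zero_pow hmi]

theorem ord_first (p : B k) (j : ℕ) (m m' : Fin k →₀ ℕ) (hm : ord p = toLex m)
    (hm' : coeff m' p ≠ 0) (hz : ∀ i : Fin k, (i : ℕ) < j → m' i = 0) :
    ∀ i : Fin k, (i : ℕ) < j → m i = 0 := by
  have hle : toLex m ≤ toLex m' := by
    have := ord_le_of hm'
    rw [hm] at this
    exact_mod_cast this
  rcases hle.eq_or_lt with heq | hlt
  · intro i hi
    have : m = m' := heq
    rw [this]
    exact hz i hi
  · obtain ⟨i0, h1, h2⟩ := Finsupp.Lex.lt_iff.1 hlt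
    intro i hi
    rcases lt_or_ge i i0 with h3 | h3
    · have := h1 i h3
      have h4 : m i = m' i := this
      rw [h4]
      exact hz i hi
    · exfalso
      have h5 : m' i0 = 0 := hz i0 (lt_of_le_of_lt h3 hi)
      have h6 : m i0 < m' i0 := h2
      omega

/-- Independence over `ℚ[F_i : i < j]` implies independence when the remaining constants are
adjoined. -/
theorem rho_ne_zero (F : Fin k → T k) {j : ℕ} (hj : j ≤ k) (Q : Finset (Fin k → ℤ))
    (hL : LinearIndependent ℚ
      (fun p : Q × (Fin j → ℕ) => (∏ i, F (Fin.castLE hj i) ^ p.2 i) * mon p.1))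
    (g : SL k) (hg : g ≠ 0) (hgQ : g.coeff.support ⊆ Q) : rho F j (th F g) ≠ 0 := by
  classical
  intro h0
  rw [rho_th] at h0
  apply hg
  have hext : ∀ a : Q, g.coeff (a : Fin k → ℤ) = 0 := by
    intro a
    apply MvPolynomial.funext
    intro t
    rw [map_zero]
    -- evaluate at `t`
    let Z : Fin k → MvPolynomial (Fin j) ℚ :=
      fun i => if hi : (i : ℕ) < j then X ⟨i, hi⟩ else MvPolynomial.C (t i)
    let ev : B k →ₐ[T k] T k := aeval (fun i => algebraMap ℚ (T k) (t i))
    have hev : ∀ h : S k, ev (aeval (Yj F j) h) =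
        aeval (fun i : Fin j => F (Fin.castLE hj i)) (aeval Z h) := by
      intro h
      have : ((ev : B k →+* T k).comp ((aeval (Yj F j) : S k →ₐ[ℚ] B k) : S k →+* B k)) =
          ((aeval (fun i : Fin j => F (Fin.castLE hj i)) : MvPolynomial (Fin j) ℚ →ₐ[ℚ] T k) :
            MvPolynomial (Fin j) ℚ →+* T k).comp ((aeval Z : S k →ₐ[ℚ] _) : S k →+* _) := by
        apply MvPolynomial.ringHom_ext
        · intro r
          simp [ev, IsScalarTower.algebraMap_apply ℚ (T k) (B k)]
        · intro i
          simp only [ev, Z, Yj, RingHom.coe_comp, RingHom.coe_coe, Function.comp_apply, aeval_X]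
          split_ifs with hi
          · simp only [aeval_X, algHom_C]
            rfl
          · simp
      exact congrArg (fun f => f h) this
    have h1 : ∑ a : Q, aeval (fun i : Fin j => F (Fin.castLE hj i))
        (aeval Z (g.coeff (a : Fin k → ℤ))) * mon (a : Fin k → ℤ) = 0 := by
      have h2 := congrArg ev h0
      rw [map_zero, map_sum] at h2
      have h5 : ∀ a, ev (aeval (Yj F j) (g.coeff a) * MvPolynomial.C (mon a)) =
          aeval (fun i : Fin j => F (Fin.castLE hj i)) (aeval Z (g.coeff a)) * mon a := by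
        intro a
        rw [map_mul, hev]
        congr 1
        simp [ev]
      rw [Finset.sum_coe_sort Q (fun a => aeval (fun i : Fin j => F (Fin.castLE hj i))
        (aeval Z (g.coeff a)) * mon a), ← h2, Finset.sum_congr rfl (fun a _ => h5 a)]
      symm
      apply Finset.sum_subset hgQ
      intro a _ ha
      rw [Finsupp.notMem_support_iff.1 ha]
      simp
    have h3 := indep_aeval (fun i : Fin j => F (Fin.castLE hj i)) (fun a : Q => mon a) hL
      (fun a : Q => aeval Z (g.coeff (a : Fin k → ℤ))) h1 a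
    have h4 : eval t (g.coeff (a : Fin k → ℤ)) =
        eval (fun i : Fin j => t (Fin.castLE hj i)) (aeval Z (g.coeff (a : Fin k → ℤ))) := by
      have : (eval t : S k →+* ℚ) = ((eval (fun i : Fin j => t (Fin.castLE hj i)) :
          MvPolynomial (Fin j) ℚ →+* ℚ)).comp ((aeval Z : S k →ₐ[ℚ] _) : S k →+* _) := by
        apply MvPolynomial.ringHom_ext
        · intro r
          simp
        · intro i
          simp only [Z, RingHom.coe_comp, RingHom.coe_coe, Function.comp_apply, aeval_X, eval_X]
          split_ifs with hi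
          · simp only [eval_X]
            rfl
          · simp
      exact congrArg (fun f => f (g.coeff (a : Fin k → ℤ))) this
    rw [h4, h3, map_zero]
  ext a : 2
  rw [AddMonoidAlgebra.coeff_zero, Finsupp.zero_apply]
  by_cases ha : a ∈ Q
  · exact hext ⟨a, ha⟩
  · by_contra hne
    exact ha (hgQ (Finsupp.mem_support_iff.2 hne))

/-- The counting inequality for sections. -/
theorem count_L (F : Fin k → T k) {X' P Q : Finset (Fin k → ℤ)}
    (hX : ∀ i, (F i).coeff.support ⊆ X') {j : ℕ} (hj : j ≤ k) (hQP : Q ⊆ P)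
    (hL : LinearIndependent ℚ
      (fun p : Q × (Fin j → ℕ) => (∏ i, F (Fin.castLE hj i) ^ p.2 i) * mon p.1))
    (hfin : (Gam F P).Finite) (N : ℕ) :
    Q.card * (box k N).card ≤
      {α ∈ Gam F P | ∀ i : Fin k, (i : ℕ) < j → α i = 0}.ncard * (P + N • (insert 0 X')).card := by
  classical
  have hfin' : {α ∈ Gam F P | ∀ i : Fin k, (i : ℕ) < j → α i = 0}.Finite :=
    hfin.subset fun α hα => hα.1
  let G : Finset (Fin k → ℕ) := hfin'.toFinset
  let el : (Q × box k N → ℚ) → SL k := fun c =>
    ∑ p : Q × box k N, AddMonoidAlgebra.single (p.1 : Fin k → ℤ)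
      (monomial (fs (p.2 : Fin k → ℕ)) (c p))
  have el_add : ∀ c c', el (c + c') = el c + el c' := by
    intro c c'
    simp only [el, ← Finset.sum_add_distrib, Pi.add_apply, map_add, AddMonoidAlgebra.single_add]
  have el_smul : ∀ (r : ℚ) c, el (r • c) = r • el c := by
    intro r c
    simp only [el, Finset.smul_sum, Pi.smul_apply, AddMonoidAlgebra.smul_single, smul_eq_mul,
      smul_monomial]
  have th_smulQ : ∀ (r : ℚ) (x : SL k), th F (r • x) = r • th F x := by
    intro r x
    have : r • x = (MvPolynomial.C r : S k) • x := by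
      ext a m
      simp [MvPolynomial.coeff_C_mul]
    rw [this, th_smul]
    unfold tS
    rw [MvPolynomial.algHom_C, Algebra.smul_def]
  let Θ : (Q × box k N → ℚ) →ₗ[ℚ] (G × (P + N • (insert 0 X') : Finset (Fin k → ℤ)) → ℚ) :=
    { toFun := fun c p => (coeff (fs (p.1 : Fin k → ℕ)) (th F (el c))).coeff (p.2 : Fin k → ℤ)
      map_add' := fun c c' => by
        ext p : 1
        simp [el_add]
      map_smul' := fun r c => by
        ext p : 1
        simp [el_smul, th_smulQ] }
  have hinj : Function.Injective Θ := by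
    rw [injective_iff_map_eq_zero]
    intro c hc
    by_contra hne
    have hcoef : ∀ p : Q × box k N,
        coeff (fs (p.2 : Fin k → ℕ)) ((el c).coeff (p.1 : Fin k → ℤ)) = c p := by
      intro p
      simp only [el, AddMonoidAlgebra.coeff_sum, Finsupp.finsetSum_apply,
        AddMonoidAlgebra.coeff_single, MvPolynomial.coeff_sum]
      rw [Finset.sum_eq_single_of_mem p (Finset.mem_univ _)]
      · rw [Finsupp.single_eq_same, MvPolynomial.coeff_monomial, if_pos rfl]
      · intro q _ hq
        rw [Finsupp.single_apply]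
        split_ifs with h1
        · rw [MvPolynomial.coeff_monomial, if_neg]
          intro h2
          apply hq
          have h3 : (q.2 : Fin k → ℕ) = p.2 := Finsupp.equivFunOnFinite.symm.injective h2
          exact Prod.ext (Subtype.ext h1) (Subtype.ext h3)
        · exact MvPolynomial.coeff_zero _
    have hel : el c ≠ 0 := by
      intro h
      apply hne
      ext p
      rw [← hcoef p, h]
      simp
    have hsup : (el c).coeff.support ⊆ Q := by
      intro a ha
      rw [Finsupp.mem_support_iff, AddMonoidAlgebra.coeff_sum, Finsupp.finsetSum_apply] at ha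
      obtain ⟨p, -, hp⟩ := Finset.exists_ne_zero_of_sum_ne_zero ha
      rw [AddMonoidAlgebra.coeff_single, Finsupp.single_apply] at hp
      split_ifs at hp with h1
      · rw [← h1]
        exact p.1.2
      · exact absurd rfl hp
    have hthne : th F (el c) ≠ 0 := fun h => hel (th_injective F (h.trans (map_zero _).symm))
    obtain ⟨m, hm⟩ := exists_ord hthne
    obtain ⟨m', hm', hz⟩ := exists_mem_support_of_rho F j _ (rho_ne_zero F hj Q hL _ hel hsup)
    have hfirst := ord_first _ j m m' hm hm' hz
    have hfsm : fs (m : Fin k → ℕ) = m := by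
      ext i
      rfl
    have hmG : (m : Fin k → ℕ) ∈ G := by
      rw [Set.Finite.mem_toFinset]
      exact ⟨⟨el c, hsup.trans hQP, by rw [hfsm]; exact hm⟩, hfirst⟩
    have hcm := coeff_ne_zero_of_ord hm
    obtain ⟨q, hq⟩ : ∃ q, (coeff m (th F (el c))).coeff q ≠ 0 := by
      by_contra hall
      push Not at hall
      apply hcm
      ext q
      exact hall q
    have hqm : q ∈ P + N • (insert 0 X') := by
      have h1 : Sup (P + N • (insert 0 X')) (th F (el c)) := by
        simp only [el, map_sum]
        apply Sup.sum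
        intro p _
        exact sup_th F hX N _ (hQP p.1.2) _ (mem_box.1 p.2.2) _
      exact h1 m (Finsupp.mem_support_iff.2 hq)
    have := congrFun hc (⟨m, hmG⟩, ⟨q, hqm⟩)
    apply hq
    simpa [Θ, hfsm] using this
  have h1 := card_le_of_injective ℚ Θ hinj
  rw [Set.ncard_eq_toFinset_card _ hfin']
  simpa using h1

end Pool.Agent.TH734.MR
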