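import Mathlib

/-!
# Newton-Okounkov semigroups of Laurent polynomials

`T k` is the ring of Laurent polynomials over `ℚ` in `k` variables, `F : Fin k → T k`. For a finite
set `P` of exponents we look at the Laurent polynomials with exponents in `P` and coefficients in
`ℚ[c_1, …, c_k]`, and expand them around the point `c = F` (in `T k [c_1, …, c_k]`). The set
`Gam F P` consists of the lexicographically smallest exponents of these expansions.
-/

set_option autoImplicit false

open MvPolynomial Finset
open scoped Pointwise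

namespace Pool.Agent.TH734.MR

/-- Laurent polynomials over `ℚ`. -/
abbrev T (k : ℕ) : Type := AddMonoidAlgebra ℚ (Fin k → ℤ)

/-- The ring of constants `ℚ[c_1, …, c_k]`. -/
abbrev S (k : ℕ) : Type := MvPolynomial (Fin k) ℚ

/-- Laurent polynomials with coefficients in `S k`. -/
abbrev SL (k : ℕ) : Type := AddMonoidAlgebra (S k) (Fin k → ℤ)

/-- Polynomials in `c_1, …, c_k` with coefficients in the Laurent ring. -/
abbrev B (k : ℕ) : Type := MvPolynomial (Fin k) (T k)

variable {k : ℕ}

/-- The expansion of a constant around `c = F`. -/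
noncomputable def tS (F : Fin k → T k) : S k →ₐ[ℚ] B k :=
  aeval (fun i => X i + C (F i))

/-- The monomial `x ^ a`. -/
noncomputable def mon (a : Fin k → ℤ) : T k := AddMonoidAlgebra.single a 1

theorem mon_ne_zero (a : Fin k → ℤ) : mon a ≠ 0 := by
  unfold mon
  rw [AddMonoidAlgebra.single_ne_zero]
  exact one_ne_zero

/-- Expansion around `c = F`. -/
noncomputable def th (F : Fin k → T k) : SL k →+* B k :=
  AddMonoidAlgebra.liftNCRingHom (tS F : S k →+* B k)
    ((C : T k →+* B k).toMonoidHom.comp (AddMonoidAlgebra.of ℚ (Fin k → ℤ)))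
    (fun _ _ => Commute.all _ _)

theorem th_single (F : Fin k → T k) (a : Fin k → ℤ) (h : S k) :
    th F (AddMonoidAlgebra.single a h) = tS F h * C (mon a) := by
  unfold th
  rw [AddMonoidAlgebra.liftNCRingHom_single]
  rfl

/-- Shift back. -/
noncomputable def un (F : Fin k → T k) : B k →ₐ[T k] B k :=
  aeval (fun i => X i - C (F i))

theorem un_tS (F : Fin k → T k) (h : S k) :
    un F (tS F h) = MvPolynomial.map (algebraMap ℚ (T k)) h := by
  have : ((un F : B k →+* B k).comp (tS F : S k →+* B k)) =
      MvPolynomial.map (algebraMap ℚ (T k)) := by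
    apply MvPolynomial.ringHom_ext
    · intro r
      simp [un, tS]
    · intro i
      simp [un, tS]
  exact congrArg (fun f => f h) this

theorem coeff_map_mul_C (h : S k) (a : Fin k → ℤ) (m : Fin k →₀ ℕ) :
    coeff m (MvPolynomial.map (algebraMap ℚ (T k)) h * C (mon a)) =
      AddMonoidAlgebra.single a (coeff m h) := by
  rw [mul_comm, MvPolynomial.coeff_C_mul, MvPolynomial.coeff_map]
  unfold mon
  rw [mul_comm, ← Algebra.smul_def, AddMonoidAlgebra.smul_single, smul_eq_mul, mul_one]

theorem coeff_un_th (F : Fin k → T k) (g : SL k) (m : Fin k →₀ ℕ) (a : Fin k → ℤ) :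
    (coeff m (un F (th F g))).coeff a = coeff m (g.coeff a) := by
  induction g using AddMonoidAlgebra.induction_linear with
  | zero => simp
  | add f g hf hg => simp [hf, hg]
  | single b h =>
    rw [th_single, map_mul, un_tS]
    have : un F (C (mon b)) = C (mon b) := by
      unfold un
      rw [MvPolynomial.aeval_C]
      rfl
    rw [this, coeff_map_mul_C, AddMonoidAlgebra.coeff_single, AddMonoidAlgebra.coeff_single,
      Finsupp.single_apply, Finsupp.single_apply]
    split_ifs <;> simp

theorem th_injective (F : Fin k → T k) : Function.Injective (th F) := by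
  rw [injective_iff_map_eq_zero]
  intro g hg
  ext a m
  have := coeff_un_th F g m a
  rw [hg] at this
  simpa using this.symm

/-- The lexicographic order of a polynomial. -/
noncomputable def ord (p : B k) : WithTop (Lex (Fin k →₀ ℕ)) :=
  MvPowerSeries.lexOrder (p : MvPowerSeries (Fin k) (T k))

/-- Functions as finitely supported functions. -/
noncomputable def fs (α : Fin k → ℕ) : Fin k →₀ ℕ := Finsupp.equivFunOnFinite.symm α

@[simp] theorem fs_apply (α : Fin k → ℕ) (i : Fin k) : fs α i = α i := rfl

/-- The semigroup data: smallest exponents of expansions of Laurent polynomials with exponents in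
`P`. -/
def Gam (F : Fin k → T k) (P : Finset (Fin k → ℤ)) : Set (Fin k → ℕ) :=
  {α | ∃ g : SL k, g.coeff.support ⊆ P ∧ ord (th F g) = toLex (fs α)}

theorem Gam_mono (F : Fin k → T k) {P Q : Finset (Fin k → ℤ)} (h : P ⊆ Q) :
    Gam F P ⊆ Gam F Q := fun _ ⟨g, hg, ho⟩ => ⟨g, hg.trans h, ho⟩

theorem ord_eq_of (p : B k) (m : Fin k →₀ ℕ) (h0 : coeff m p ≠ 0)
    (h : ∀ d : Fin k →₀ ℕ, toLex d < toLex m → coeff d p = 0) : ord p = toLex m := by
  apply le_antisymm
  · apply MvPowerSeries.lexOrder_le_of_coeff_ne_zero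
    rwa [MvPolynomial.coeff_coe]
  · apply MvPowerSeries.le_lexOrder_iff.2
    intro d hd
    rw [MvPolynomial.coeff_coe]
    exact h d (by exact_mod_cast hd)

theorem exists_ord {p : B k} (h : p ≠ 0) : ∃ m : Fin k →₀ ℕ, ord p = toLex m := by
  apply MvPowerSeries.exists_finsupp_eq_lexOrder_of_ne_zero
  intro h0
  apply h
  exact MvPolynomial.coe_injective _ _ (by simpa using h0)

theorem coeff_ne_zero_of_ord {p : B k} {m : Fin k →₀ ℕ} (h : ord p = toLex m) :
    coeff m p ≠ 0 := by
  rw [← MvPolynomial.coeff_coe]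
  exact MvPowerSeries.coeff_ne_zero_of_lexOrder h.symm

theorem coeff_eq_zero_of_lt_ord {p : B k} {m : Fin k →₀ ℕ} (h : toLex m < ord p) :
    coeff m p = 0 := by
  rw [← MvPolynomial.coeff_coe]
  exact MvPowerSeries.coeff_eq_zero_of_lt_lexOrder h

theorem ord_le_of {p : B k} {m : Fin k →₀ ℕ} (h : coeff m p ≠ 0) : ord p ≤ toLex m := by
  apply MvPowerSeries.lexOrder_le_of_coeff_ne_zero
  rwa [MvPolynomial.coeff_coe]

theorem ord_mul (p q : B k) : ord (p * q) = ord p + ord q := by
  unfold ord
  rw [MvPolynomial.coe_mul, MvPowerSeries.lexOrder_mul]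

theorem Gam_add (F : Fin k → T k) {P Q : Finset (Fin k → ℤ)} {α β : Fin k → ℕ}
    (hα : α ∈ Gam F P) (hβ : β ∈ Gam F Q) : α + β ∈ Gam F (P + Q) := by
  obtain ⟨g, hg, hog⟩ := hα
  obtain ⟨h, hh, hoh⟩ := hβ
  refine ⟨g * h, ?_, ?_⟩
  · exact (AddMonoidAlgebra.support_coeff_mul_subset g h).trans (Finset.add_subset_add hg hh)
  · rw [map_mul, ord_mul, hog, hoh]
    have : fs (α + β) = fs α + fs β := by
      ext i
      simp
    rw [this]
    rfl

theorem zero_mem_Gam (F : Fin k → T k) : (0 : Fin k → ℕ) ∈ Gam F {0} := by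
  refine ⟨1, ?_, ?_⟩
  · rw [AddMonoidAlgebra.one_def, AddMonoidAlgebra.coeff_single]
    exact Finsupp.support_single_subset
  · rw [map_one]
    have h0 : fs (0 : Fin k → ℕ) = 0 := by
      ext i
      simp
    rw [h0]
    apply ord_eq_of
    · simp
    · intro d hd
      exfalso
      exact absurd hd (not_lt.2 (by exact bot_le (α := Lex (Fin k →₀ ℕ)) (a := toLex d)))

/-- Laurent polynomials over `ℚ` as Laurent polynomials over `S k`. -/
noncomputable def emb : T k →+* SL k := AddMonoidAlgebra.mapRingHom _ (algebraMap ℚ (S k))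

theorem emb_single (a : Fin k → ℤ) (r : ℚ) :
    emb (AddMonoidAlgebra.single a r : T k) = AddMonoidAlgebra.single a (C r) := by
  unfold emb
  rw [AddMonoidAlgebra.mapRingHom_single]
  rfl

theorem th_emb (F : Fin k → T k) (f : T k) : th F (emb f) = C f := by
  induction f using AddMonoidAlgebra.induction_linear with
  | zero => simp
  | add f g hf hg => simp [hf, hg]
  | single b r =>
    rw [emb_single, th_single]
    unfold tS mon
    rw [MvPolynomial.algHom_C, IsScalarTower.algebraMap_apply ℚ (T k) (B k),
      MvPolynomial.algebraMap_eq, ← map_mul, ← Algebra.smul_def, AddMonoidAlgebra.smul_single,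
      smul_eq_mul, mul_one]

theorem support_emb (f : T k) : (emb f).coeff.support ⊆ f.coeff.support := by
  intro a ha
  rw [Finsupp.mem_support_iff] at ha ⊢
  intro h
  apply ha
  unfold emb
  rw [AddMonoidAlgebra.coeff_mapRingHom]
  simp [h]

theorem single_mem_Gam (F : Fin k → T k) {X' : Finset (Fin k → ℤ)}
    (hX : ∀ i, (F i).coeff.support ⊆ X') (i : Fin k) :
    (Pi.single i 1 : Fin k → ℕ) ∈ Gam F (insert 0 X') := by
  classical
  refine ⟨AddMonoidAlgebra.single 0 (X i) - emb (F i), ?_, ?_⟩
  · intro a ha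
    rw [Finset.mem_insert]
    by_contra hcon
    rw [not_or] at hcon
    rw [Finsupp.mem_support_iff] at ha
    apply ha
    have h1 : (emb (F i)).coeff a = 0 := by
      by_contra h
      exact hcon.2 (hX i (support_emb (F i) (Finsupp.mem_support_iff.2 h)))
    rw [AddMonoidAlgebra.coeff_sub, Finsupp.sub_apply, h1, sub_zero, AddMonoidAlgebra.coeff_single,
      Finsupp.single_apply, if_neg (fun h => hcon.1 h.symm)]
  · rw [map_sub, th_single, th_emb]
    have h1 : tS F (X i) * C (mon 0) - C (F i) = X i := by
      have : mon (0 : Fin k → ℤ) = 1 := rfl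
      rw [this, map_one, mul_one]
      unfold tS
      simp
    rw [h1]
    have h2 : fs (Pi.single i 1 : Fin k → ℕ) = Finsupp.single i 1 := by
      ext l
      rw [fs_apply, Finsupp.single_apply, Pi.single_apply]
      simp [eq_comm]
    rw [h2]
    apply ord_eq_of
    · simp [MvPolynomial.coeff_X]
    · intro d hd
      rw [MvPolynomial.coeff_X, if_neg]
      rintro rfl
      exact lt_irrefl _ hd

end Pool.Agent.TH734.MR
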